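import Mathlib

/-!
Infinite chromatic number and subdivisions of complete graphs (a question of Halin type).

For every infinite cardinal `a` let `V` be the tree of all injective sequences of elements of `a`
whose length is an ordinal below `a⁺`, ordered by extension, and `G` its comparability graph.
Then the chromatic number of `G` is exactly `a⁺`, but `G` contains no subdivision of `K_{a⁺}`,
and not even a `K_{a⁺}` minor.
-/

open Cardinal Set

universe u

namespace Pool.Agent.Results.MP_e76a7e_co.NoSubdivision

/-- The chromatic number of a graph, as a cardinal: the least cardinality of a set of colours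
of a proper colouring (least number of independent sets that cover the vertex set). -/
noncomputable def chi {V : Type u} (G : SimpleGraph V) : Cardinal.{u} :=
  sInf {κ | ∃ C : Type u, #C = κ ∧ Nonempty (G.Coloring C)}

/-- `G` contains a subdivision of the complete graph on `κ` vertices: a set `B` of `κ` branch
vertices and for each two of them a finite path, such that no path has an inner vertex in `B`
and the paths of different pairs have no inner vertex in common. -/
def HasSubdividedClique {V : Type u} (G : SimpleGraph V) (κ : Cardinal.{u}) : Prop :=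
  ∃ (B : Set V) (P : ∀ x y : V, x ∈ B → y ∈ B → x ≠ y → G.Walk x y),
    #B = κ ∧
    (∀ x y hx hy h, (P x y hx hy h).IsPath) ∧
    (∀ x y hx hy h, P y x hy hx (Ne.symm h) = (P x y hx hy h).reverse) ∧
    (∀ x y hx hy h z, z ∈ (P x y hx hy h).support → z ∈ B → z = x ∨ z = y) ∧
    (∀ x y hx hy h x' y' hx' hy' h' z, s(x, y) ≠ s(x', y') →
      z ∈ (P x y hx hy h).support → z ∈ (P x' y' hx' hy' h').support → z ∈ B)

/-- `G` has the complete graph on `κ` vertices as a minor: `κ` disjoint connected vertex sets,
each two joined by an edge. -/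
def HasCliqueMinor {V : Type u} (G : SimpleGraph V) (κ : Cardinal.{u}) : Prop :=
  ∃ (I : Type u) (W : I → Set V), #I = κ ∧
    (∀ i, (G.induce (W i)).Connected) ∧
    (∀ i j, i ≠ j → Disjoint (W i) (W j)) ∧
    (∀ i j, i ≠ j → ∃ x ∈ W i, ∃ y ∈ W j, G.Adj x y)

section Card

variable {a : Cardinal.{u}}

theorem union_le (ha : ℵ₀ ≤ a) {α : Type u} {S T : Set α} (hS : #S ≤ a) (hT : #T ≤ a) :
    #(S ∪ T : Set α) ≤ a :=
  (mk_union_le S T).trans ((add_le_add hS hT).trans (add_eq_self ha).le)

theorem iUnion_le (ha : ℵ₀ ≤ a) {I α : Type u} (hI : #I ≤ a) (f : I → Set α)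
    (h : ∀ i, #(f i) ≤ a) : #(⋃ i, f i) ≤ a := by
  refine (mk_iUnion_le_sum_mk).trans ?_
  refine (Cardinal.sum_le_sum _ (fun _ => a) h).trans ?_
  rw [Cardinal.sum_const']
  exact (mul_le_mul' hI le_rfl).trans (mul_eq_self ha).le

theorem exists_notMem {J : Type u} (hJ : a < #J) {S : Set J} (hS : #S ≤ a) : ∃ j, j ∉ S := by
  by_contra hcon
  push Not at hcon
  have : S = Set.univ := Set.eq_univ_of_forall hcon
  rw [this, mk_univ] at hS
  exact absurd hJ (not_lt.mpr hS)

end Card

section Tree

variable (ι A : Type u) [LinearOrder ι]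

/-- Injective sequences of elements of `A`, indexed by a proper initial segment of `ι`;
the value `none` means that the sequence has ended. -/
def Node : Type u :=
  {f : ι → Option A // (∃ α, ∀ γ, (f γ).isSome ↔ γ < α) ∧
    ∀ γ δ, f γ ≠ none → f γ = f δ → γ = δ}

variable {ι A}

/-- `g` extends `f`. -/
def Ext (f g : Node ι A) : Prop := ∀ γ, f.1 γ ≠ none → g.1 γ = f.1 γ

variable (ι A)

/-- The comparability graph of the tree of injective sequences. -/
def treeGraph : SimpleGraph (Node ι A) where
  Adj f g := f ≠ g ∧ (Ext f g ∨ Ext g f)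
  symm := ⟨fun _ _ h => ⟨h.1.symm, h.2.symm⟩⟩
  loopless := ⟨fun _ h => h.1 rfl⟩

variable {ι A}

/-- the length of a node -/
noncomputable def len (f : Node ι A) : ι := f.2.1.choose

theorem isSome_iff (f : Node ι A) (γ : ι) : (f.1 γ).isSome ↔ γ < len f := f.2.1.choose_spec γ

theorem ne_none_iff (f : Node ι A) (γ : ι) : f.1 γ ≠ none ↔ γ < len f := by
  rw [← isSome_iff, Option.isSome_iff_ne_none]

theorem eq_of_ext_of_len {f g : Node ι A} (h : Ext f g) (hl : len f = len g) : f = g := by
  apply Subtype.ext
  funext γ
  by_cases hγ : γ < len f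
  · exact (h γ ((ne_none_iff f γ).mpr hγ)).symm
  · have h1 : f.1 γ = none := by
      by_contra hne; exact hγ ((ne_none_iff f γ).mp hne)
    have h2 : g.1 γ = none := by
      by_contra hne; exact hγ (hl ▸ (ne_none_iff g γ).mp hne)
    rw [h1, h2]

/-- Nodes of equal length are not adjacent, so the length is a proper colouring. -/
noncomputable def lenColoring : (treeGraph ι A).Coloring ι :=
  SimpleGraph.Coloring.mk len (by
    intro f g hadj heq
    rcases hadj.2 with h | h
    · exact hadj.1 (eq_of_ext_of_len h heq)
    · exact hadj.1 (eq_of_ext_of_len h heq.symm).symm)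

/-- Cutting a sequence of length `ι` at `α`. -/
noncomputable def cut (F : ι → A) (α : ι) : ι → Option A := fun γ =>
  haveI := Classical.dec (γ < α)
  if γ < α then some (F γ) else none

theorem cut_of_lt (F : ι → A) {α γ : ι} (h : γ < α) : cut F α γ = some (F γ) := by
  unfold cut; rw [if_pos h]

theorem cut_of_not_lt (F : ι → A) {α γ : ι} (h : ¬ γ < α) : cut F α γ = none := by
  unfold cut; rw [if_neg h]

variable [WellFoundedLT ι]

/-- No proper colouring of the tree with `A` as set of colours, if `ι` does not inject into `A`. -/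
theorem no_coloring (hno : ¬ ∃ F : ι → A, Function.Injective F)
    (c : (treeGraph ι A).Coloring A) : False := by
  classical
  have hA : Nonempty A := by
    by_contra hA
    rw [not_nonempty_iff] at hA
    by_cases hι : Nonempty ι
    · obtain ⟨i⟩ := hι
      -- there is a minimal element, the empty sequence is a node
      obtain ⟨m, -, hm⟩ := (wellFounded_lt (α := ι)).has_min Set.univ ⟨i, trivial⟩
      have : Node ι A := ⟨fun _ => none, ⟨m, fun γ => by
          simp only [Option.isSome_none, Bool.false_eq_true, false_iff]
          exact hm γ trivial⟩, fun γ δ h => absurd rfl h⟩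
      exact hA.elim (c this)
    · rw [not_nonempty_iff] at hι
      exact hno ⟨fun i => hι.elim i, fun i => hι.elim i⟩
  obtain ⟨a0⟩ := hA
  let c' : (ι → Option A) → A := fun f =>
    if h : (∃ α, ∀ γ, (f γ).isSome ↔ γ < α) ∧ ∀ γ δ, f γ ≠ none → f γ = f δ → γ = δ
    then c ⟨f, h⟩ else a0
  -- recursive definition
  let step : (α : ι) → ((γ : ι) → γ < α → A) → A := fun α G =>
    c' (fun γ => if h : γ < α then some (G γ h) else none)
  let F : ι → A := (wellFounded_lt (α := ι)).fix step
  have hF : ∀ α, F α = c' (cut F α) := by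
    intro α
    have h1 : F α = step α (fun γ _ => F γ) := (wellFounded_lt (α := ι)).fix_eq step α
    rw [h1]
    change c' _ = c' _
    congr 1
    funext γ
    by_cases h : γ < α
    · rw [dif_pos h, cut_of_lt F h]
    · rw [dif_neg h, cut_of_not_lt F h]
  have hnode : ∀ α, (∃ β, ∀ γ, (cut F α γ).isSome ↔ γ < β) ∧
      ∀ γ δ, cut F α γ ≠ none → cut F α γ = cut F α δ → γ = δ := by
    intro α
    induction α using (wellFounded_lt (α := ι)).induction with
    | _ α ih =>
      refine ⟨⟨α, fun γ => ?_⟩, ?_⟩
      · by_cases h : γ < α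
        · rw [cut_of_lt F h]; simp [h]
        · rw [cut_of_not_lt F h]; simp [h]
      · intro γ δ hγ heq
        have hγ' : γ < α := by
          by_contra h; exact hγ (cut_of_not_lt F h)
        have hδ' : δ < α := by
          by_contra h
          rw [cut_of_not_lt F h] at heq
          exact hγ heq
        rw [cut_of_lt F hγ', cut_of_lt F hδ'] at heq
        have heq' : F γ = F δ := Option.some.inj heq
        have key : ∀ x y : ι, x < y → y < α → F x ≠ F y := by
          intro x y hxy hy hxyF
          have hx : x < α := hxy.trans hy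
          rw [hF x, hF y] at hxyF
          have e1 : c' (cut F x) = c ⟨cut F x, ih x hx⟩ := dif_pos (ih x hx)
          have e2 : c' (cut F y) = c ⟨cut F y, ih y hy⟩ := dif_pos (ih y hy)
          rw [e1, e2] at hxyF
          have hadj : (treeGraph ι A).Adj ⟨cut F x, ih x hx⟩ ⟨cut F y, ih y hy⟩ := by
            refine ⟨?_, Or.inl ?_⟩
            · intro h
              have h2 : cut F x = cut F y := congrArg Subtype.val h
              have h3 := congrFun h2 x
              rw [cut_of_not_lt F (lt_irrefl x), cut_of_lt F hxy] at h3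
              exact absurd h3 (by simp)
            · intro γ hγ
              have hγx : γ < x := by
                by_contra h; exact hγ (cut_of_not_lt F h)
              change cut F y γ = cut F x γ
              rw [cut_of_lt F hγx, cut_of_lt F (hγx.trans hxy)]
          exact c.valid hadj hxyF
        rcases lt_trichotomy γ δ with h | h | h
        · exact absurd heq' (key γ δ h hδ')
        · exact h
        · exact absurd heq'.symm (key δ γ h hγ')
  apply hno
  refine ⟨F, ?_⟩
  have key : ∀ x y : ι, x < y → F x ≠ F y := by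
    intro x y hxy hxyF
    rw [hF x, hF y] at hxyF
    have e1 : c' (cut F x) = c ⟨cut F x, hnode x⟩ := dif_pos (hnode x)
    have e2 : c' (cut F y) = c ⟨cut F y, hnode y⟩ := dif_pos (hnode y)
    rw [e1, e2] at hxyF
    have hadj : (treeGraph ι A).Adj ⟨cut F x, hnode x⟩ ⟨cut F y, hnode y⟩ := by
      refine ⟨?_, Or.inl ?_⟩
      · intro h
        have h2 : cut F x = cut F y := congrArg Subtype.val h
        have h3 := congrFun h2 x
        rw [cut_of_not_lt F (lt_irrefl x), cut_of_lt F hxy] at h3
        exact absurd h3 (by simp)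
      · intro γ hγ
        have hγx : γ < x := by
          by_contra h; exact hγ (cut_of_not_lt F h)
        change cut F y γ = cut F x γ
        rw [cut_of_lt F hγx, cut_of_lt F (hγx.trans hxy)]
    exact c.valid hadj hxyF
  intro x y hxy
  rcases lt_trichotomy x y with h | h | h
  · exact absurd hxy (key x y h)
  · exact h
  · exact absurd hxy.symm (key y x h)

/-- connection of two vertices outside a set `X` -/
def Conn {V : Type u} (G : SimpleGraph V) (X : Set V) (x y : V) : Prop :=
  Relation.ReflTransGen (fun u v => G.Adj u v ∧ u ∉ X ∧ v ∉ X) x y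

/-- The main lemma: the tree graph has no family of more than `a` vertices which, up to at most
`a` of them, stay connected after the deletion of any `a` vertices. -/
theorem no_linked {a : Cardinal.{u}} (ha : ℵ₀ ≤ a) (hι : a < #ι) (hI : ∀ i : ι, #(Iio i) ≤ a)
    (hA : #A ≤ a) {J : Type u} (hJ : a < #J) (b : J → Node ι A) (hb : Function.Injective b)
    (H : ∀ X : Set (Node ι A), #X ≤ a → ∃ S : Set J, #(Sᶜ : Set J) ≤ a ∧
      ∀ i ∈ S, ∀ j ∈ S, Conn (treeGraph ι A) X (b i) (b j)) : False := by
  classical
  -- for each index `α` almost all members of the family have the same value at `α`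
  have key : ∀ α : ι, ∃ m : A, #({j | (b j).1 α ≠ some m} : Set J) ≤ a := by
    intro α
    induction α using (wellFounded_lt (α := ι)).induction with
    | _ α ih =>
      choose n hn using ih
      -- exceptional set
      let E : Set J := ⋃ β : Iio α, {j | (b j).1 β.1 ≠ some (n β.1 β.2)}
      have hE : #E ≤ a := iUnion_le ha (hI α) _ (fun β => hn β.1 β.2)
      let X : Set (Node ι A) := {t | len t ≤ α ∧ ∀ β (h : β < α), β < len t →
        t.1 β = some (n β h)}
      have hX : #X ≤ a := by
        have hinj : Function.Injective (fun t : X => (⟨len t.1, t.2.1⟩ : Iic α)) := by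
          intro s t hst
          have hl : len s.1 = len t.1 := congrArg Subtype.val hst
          apply Subtype.ext
          refine eq_of_ext_of_len ?_ hl
          intro γ hγ
          have h1 : γ < len s.1 := (ne_none_iff _ _).mp hγ
          have h2 : γ < α := lt_of_lt_of_le h1 s.2.1
          rw [s.2.2 γ h2 h1, t.2.2 γ h2 (hl ▸ h1)]
        refine (mk_le_of_injective hinj).trans ?_
        have : (Iic α : Set ι) = insert α (Iio α) := by
          ext x; simp [le_iff_eq_or_lt]
        rw [this]
        refine (mk_insert_le).trans ?_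
        exact (add_le_add (hI α) (one_le_aleph0.trans ha)).trans (add_eq_self ha).le
      obtain ⟨S, hS, hconn⟩ := H X hX
      have hbX : #(b ⁻¹' X) ≤ a :=
        (mk_preimage_of_injective b X hb).trans hX
      obtain ⟨j0, hj0⟩ := exists_notMem hJ (union_le ha (union_le ha hS hE) hbX)
      have hj0S : j0 ∈ S := by
        by_contra h; exact hj0 (Or.inl (Or.inl h))
      have hj0E : ∀ β (h : β < α), (b j0).1 β = some (n β h) := by
        intro β h
        by_contra hne
        exact hj0 (Or.inl (Or.inr (Set.mem_iUnion.mpr ⟨⟨β, h⟩, hne⟩)))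
      have hj0X : b j0 ∉ X := fun h => hj0 (Or.inr h)
      have hlen : α < len (b j0) := by
        by_contra hle
        exact hj0X ⟨not_lt.mp hle, fun β h _ => hj0E β h⟩
      have hne : (b j0).1 α ≠ none := (ne_none_iff _ _).mpr hlen
      obtain ⟨m, hm⟩ := Option.ne_none_iff_exists'.mp hne
      refine ⟨m, ?_⟩
      refine le_trans (mk_le_mk_of_subset ?_) hS
      intro j hj
      by_contra hjS
      have hjS' : j ∈ S := by
        by_contra h; exact hjS h
      apply hj
      -- invariant along the connection
      have inv : ∀ u v : Node ι A, Conn (treeGraph ι A) X u v →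
          ((∀ β (h : β < α), u.1 β = some (n β h)) ∧ u.1 α = some m) →
          ((∀ β (h : β < α), v.1 β = some (n β h)) ∧ v.1 α = some m) := by
        intro u v huv hu
        induction huv with
        | refl => exact hu
        | @tail x y _ hstep ihv =>
          obtain ⟨hadj, hxX, hyX⟩ := hstep
          obtain ⟨h1, h2⟩ := ihv
          rcases hadj.2 with hext | hext
          · refine ⟨fun β h => ?_, ?_⟩
            · rw [hext β (by rw [h1 β h]; simp), h1 β h]
            · rw [hext α (by rw [h2]; simp), h2]
          · -- y is an initial segment of x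
            have hly : α < len y := by
              by_contra hle
              apply hyX
              refine ⟨not_lt.mp hle, fun β h hβ => ?_⟩
              rw [← hext β ((ne_none_iff _ _).mpr hβ), h1 β h]
            refine ⟨fun β h => ?_, ?_⟩
            · rw [← hext β ((ne_none_iff _ _).mpr (h.trans hly)), h1 β h]
            · rw [← hext α ((ne_none_iff _ _).mpr hly), h2]
      exact (inv _ _ (hconn j0 hj0S j hjS') ⟨hj0E, hm⟩).2
  choose N hN using key
  have hNinj : Function.Injective N := by
    intro α β hαβ
    obtain ⟨j, hj⟩ := exists_notMem hJ (union_le ha (hN α) (hN β))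
    have h1 : (b j).1 α = some (N α) := by
      by_contra h; exact hj (Or.inl h)
    have h2 : (b j).1 β = some (N β) := by
      by_contra h; exact hj (Or.inr h)
    exact (b j).2.2 α β (by rw [h1]; simp) (by rw [h1, h2, hαβ])
  exact absurd ((mk_le_of_injective hNinj).trans hA) (not_le.mpr hι)

end Tree

section Links

variable {V : Type u} {G : SimpleGraph V} {X : Set V}

theorem Conn.symm {x y : V} (h : Conn G X x y) : Conn G X y x := by
  induction h with
  | refl => exact Relation.ReflTransGen.refl
  | tail _ hs ih => exact Relation.ReflTransGen.head ⟨hs.1.symm, hs.2.2, hs.2.1⟩ ih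

theorem conn_of_walk {x y : V} (p : G.Walk x y) (h : ∀ z ∈ p.support, z ∉ X) : Conn G X x y := by
  induction p with
  | nil => exact Relation.ReflTransGen.refl
  | cons hadj p ih =>
    rename_i u v w
    refine Relation.ReflTransGen.head ⟨hadj, ?_, ?_⟩ (ih ?_)
    · exact h _ (by simp)
    · exact h _ (by simp [SimpleGraph.Walk.support_cons])
    · intro z hz
      exact h z (by simp [SimpleGraph.Walk.support_cons, hz])

theorem conn_of_induce {W : Set V} (hW : Disjoint W X) (hc : (G.induce W).Connected)
    {x y : V} (hx : x ∈ W) (hy : y ∈ W) : Conn G X x y := by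
  obtain ⟨p⟩ := hc.preconnected ⟨x, hx⟩ ⟨y, hy⟩
  have hmain : ∀ u v : W, (G.induce W).Walk u v → Conn G X u.1 v.1 := by
    intro u v p
    induction p with
    | nil => exact Relation.ReflTransGen.refl
    | cons hadj p ih =>
      refine Relation.ReflTransGen.head ⟨hadj, ?_, ?_⟩ ih
      · exact fun h => (Set.disjoint_left.mp hW) (Subtype.property _) h
      · exact fun h => (Set.disjoint_left.mp hW) (Subtype.property _) h
  exact hmain _ _ p

/-- A subdivision of a complete graph on more than `a` vertices gives a linked family. -/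
theorem linked_of_subdivision {a : Cardinal.{u}} (ha : ℵ₀ ≤ a) {B : Set V} (hB : a < #B)
    (P : ∀ x y : V, x ∈ B → y ∈ B → x ≠ y → G.Walk x y)
    (hin : ∀ x y hx hy h z, z ∈ (P x y hx hy h).support → z ∈ B → z = x ∨ z = y)
    (hdis : ∀ x y hx hy h x' y' hx' hy' h' z, s(x, y) ≠ s(x', y') →
      z ∈ (P x y hx hy h).support → z ∈ (P x' y' hx' hy' h').support → z ∈ B)
    (X : Set V) (hX : #X ≤ a) : ∃ S : Set B, #(Sᶜ : Set B) ≤ a ∧
      ∀ i ∈ S, ∀ j ∈ S, Conn G X i.1 j.1 := by
  classical
  refine ⟨{x | x.1 ∉ X}, ?_, ?_⟩
  · have hinj : Function.Injective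
        (fun t : ({x : B | x.1 ∉ X}ᶜ : Set B) => (⟨t.1.1, not_not.mp t.2⟩ : X)) := by
      intro s t h
      have := congrArg Subtype.val h
      exact Subtype.ext (Subtype.ext this)
    exact (mk_le_of_injective hinj).trans hX
  · rintro ⟨x, hx⟩ hxX ⟨y, hy⟩ hyX
    have hxX' : x ∉ X := hxX
    have hyX' : y ∉ X := hyX
    by_cases hxy : x = y
    · subst hxy; exact Relation.ReflTransGen.refl
    -- bad intermediate branch vertices
    let Bad : Set B := {c | ∃ (hxc : x ≠ c.1) (hcy : c.1 ≠ y), ∃ z ∈ X,
      z ∈ (P x c.1 hx c.2 hxc).support ∨ z ∈ (P c.1 y c.2 hy hcy).support}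
    have hBad : #Bad ≤ a := by
      have hch : ∀ t : Bad, ∃ z : X, ∃ (hxc : x ≠ t.1.1) (hcy : t.1.1 ≠ y),
          z.1 ∈ (P x t.1.1 hx t.1.2 hxc).support ∨ z.1 ∈ (P t.1.1 y t.1.2 hy hcy).support := by
        rintro ⟨c, hxc, hcy, z, hz, h⟩
        exact ⟨⟨z, hz⟩, hxc, hcy, h⟩
      choose f hf using hch
      have hinj : Function.Injective f := by
        intro s t hst
        obtain ⟨hxs, hsy, hs⟩ := hf s
        obtain ⟨hxt, hty, ht⟩ := hf t
        rw [← hst] at ht
        by_contra hne
        have hne' : s.1.1 ≠ t.1.1 := fun h => hne (Subtype.ext (Subtype.ext h))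
        by_cases hzB : (f s).1 ∈ B
        · have h1 : (f s).1 = s.1.1 := by
            rcases hs with hs | hs
            · rcases hin _ _ _ _ _ _ hs hzB with h | h
              · exact absurd (h ▸ (f s).2) hxX'
              · exact h
            · rcases hin _ _ _ _ _ _ hs hzB with h | h
              · exact h
              · exact absurd (h ▸ (f s).2) hyX'
          have h2 : (f s).1 = t.1.1 := by
            rcases ht with ht | ht
            · rcases hin _ _ _ _ _ _ ht hzB with h | h
              · exact absurd (h ▸ (f s).2) hxX'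
              · exact h
            · rcases hin _ _ _ _ _ _ ht hzB with h | h
              · exact h
              · exact absurd (h ▸ (f s).2) hyX'
          exact hne' (h1.symm.trans h2)
        · rcases hs with hs | hs <;> rcases ht with ht | ht
          · exact hzB (hdis _ _ _ _ _ _ _ _ _ _ _ (by
              intro h
              rw [Sym2.eq_iff] at h
              rcases h with ⟨_, h⟩ | ⟨h, _⟩
              · exact hne' h
              · exact hxt h) hs ht)
          · exact hzB (hdis _ _ _ _ _ _ _ _ _ _ _ (by
              intro h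
              rw [Sym2.eq_iff] at h
              rcases h with ⟨h, _⟩ | ⟨h, _⟩
              · exact hxt h
              · exact hxy h) hs ht)
          · exact hzB (hdis _ _ _ _ _ _ _ _ _ _ _ (by
              intro h
              rw [Sym2.eq_iff] at h
              rcases h with ⟨h, _⟩ | ⟨h, _⟩
              · exact hxs h.symm
              · exact hne' h) hs ht)
          · exact hzB (hdis _ _ _ _ _ _ _ _ _ _ _ (by
              intro h
              rw [Sym2.eq_iff] at h
              rcases h with ⟨h, _⟩ | ⟨h, _⟩
              · exact hne' h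
              · exact hsy h) hs ht)
      exact (mk_le_of_injective hinj).trans hX
    have hsing : ∀ v : B, #({v} : Set B) ≤ a := by
      intro v
      rw [mk_singleton]
      exact one_le_aleph0.trans ha
    obtain ⟨c, hc⟩ := exists_notMem hB
      (union_le ha (union_le ha hBad (hsing ⟨x, hx⟩)) (hsing ⟨y, hy⟩))
    have hcx : x ≠ c.1 := by
      intro h; exact hc (Or.inl (Or.inr (Subtype.ext h.symm)))
    have hcy : c.1 ≠ y := by
      intro h; exact hc (Or.inr (Subtype.ext h))
    have hgood : ∀ z ∈ X, z ∉ (P x c.1 hx c.2 hcx).support ∧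
        z ∉ (P c.1 y c.2 hy hcy).support := by
      intro z hz
      constructor
      · intro h; exact hc (Or.inl (Or.inl ⟨hcx, hcy, z, hz, Or.inl h⟩))
      · intro h; exact hc (Or.inl (Or.inl ⟨hcx, hcy, z, hz, Or.inr h⟩))
    exact (conn_of_walk (P x c.1 hx c.2 hcx) (fun z hz hzX => (hgood z hzX).1 hz)).trans
      (conn_of_walk (P c.1 y c.2 hy hcy) (fun z hz hzX => (hgood z hzX).2 hz))

/-- A complete minor on more than `a` vertices gives a linked family. -/
theorem linked_of_minor {a : Cardinal.{u}} {I : Type u} {W : I → Set V}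
    (hcon : ∀ i, (G.induce (W i)).Connected)
    (hdis : ∀ i j, i ≠ j → Disjoint (W i) (W j))
    (hadj : ∀ i j, i ≠ j → ∃ x ∈ W i, ∃ y ∈ W j, G.Adj x y)
    (b : I → V) (hb : ∀ i, b i ∈ W i)
    (X : Set V) (hX : #X ≤ a) : ∃ S : Set I, #(Sᶜ : Set I) ≤ a ∧
      ∀ i ∈ S, ∀ j ∈ S, Conn G X (b i) (b j) := by
  classical
  refine ⟨{i | Disjoint (W i) X}, ?_, ?_⟩
  · have hch : ∀ t : ({i | Disjoint (W i) X}ᶜ : Set I), ∃ z : X, z.1 ∈ W t.1 := by
      rintro ⟨i, hi⟩
      have : ¬ Disjoint (W i) X := hi
      rw [Set.not_disjoint_iff] at this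
      obtain ⟨z, hz, hzX⟩ := this
      exact ⟨⟨z, hzX⟩, hz⟩
    choose f hf using hch
    have hinj : Function.Injective f := by
      intro s t hst
      by_contra hne
      have hne' : s.1 ≠ t.1 := fun h => hne (Subtype.ext h)
      exact Set.disjoint_left.mp (hdis _ _ hne') (hf s) (hst ▸ hf t)
    exact (mk_le_of_injective hinj).trans hX
  · intro i hi j hj
    by_cases hij : i = j
    · subst hij; exact Relation.ReflTransGen.refl
    obtain ⟨x, hx, y, hy, hxy⟩ := hadj i j hij
    have h1 : Conn G X (b i) x := conn_of_induce hi (hcon i) (hb i) hx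
    have h2 : Conn G X y (b j) := conn_of_induce hj (hcon j) hy (hb j)
    refine (h1.tail ⟨hxy, ?_, ?_⟩).trans h2
    · exact Set.disjoint_left.mp hi hx
    · exact Set.disjoint_left.mp hj hy

end Links

/-- For every infinite cardinal `a` there is a graph of chromatic number exactly `a⁺` without a
subdivision of the complete graph on `a⁺` vertices, and even without such a minor. -/
theorem result (a : Cardinal.{u}) (ha : ℵ₀ ≤ a) :
    ∃ (V : Type u) (G : SimpleGraph V), chi G = Order.succ a ∧
      ¬ HasSubdividedClique G (Order.succ a) ∧ ¬ HasCliqueMinor G (Order.succ a) := by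
  classical
  let ι : Type u := (Order.succ a).ord.ToType
  let A : Type u := a.out
  have hιc : #ι = Order.succ a := mk_ord_toType _
  have hι : a < #ι := by rw [hιc]; exact Order.lt_succ a
  have hA : #A = a := mk_out a
  have hI : ∀ i : ι, #(Iio i) ≤ a := by
    intro i
    have h := mk_Iio_lt i (by simp [ι])
    rw [hιc] at h
    exact Order.lt_succ_iff.mp h
  refine ⟨Node ι A, treeGraph ι A, ?_, ?_, ?_⟩
  · apply le_antisymm
    · exact csInf_le' ⟨ι, hιc, ⟨lenColoring⟩⟩
    · refine le_csInf ⟨_, ι, hιc, ⟨lenColoring⟩⟩ ?_
      rintro κ ⟨C, rfl, ⟨c⟩⟩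
      rw [Order.succ_le_iff]
      by_contra hle
      rw [not_lt, ← hA] at hle
      obtain ⟨e⟩ := (Cardinal.le_def C A).mp hle
      have c' : (treeGraph ι A).Coloring A :=
        SimpleGraph.Coloring.mk (fun v => e (c v)) (by
          intro v w hvw h
          exact c.valid hvw (e.injective h))
      refine no_coloring ?_ c'
      rintro ⟨F, hF⟩
      exact absurd (mk_le_of_injective hF) (not_le.mpr (hA ▸ hι))
  · rintro ⟨B, P, hB, -, -, hin, hdis⟩
    have hB' : a < #B := by rw [hB]; exact Order.lt_succ a
    exact no_linked ha hι hI hA.le hB' Subtype.val Subtype.val_injective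
      (fun X hX => linked_of_subdivision ha hB' P hin hdis X hX)
  · rintro ⟨I, W, hIc, hcon, hdis, hadj⟩
    have hI' : a < #I := by rw [hIc]; exact Order.lt_succ a
    have hne : ∀ i, ∃ x, x ∈ W i := by
      intro i
      obtain ⟨⟨x, hx⟩⟩ := (hcon i).nonempty
      exact ⟨x, hx⟩
    choose b hb using hne
    have hbinj : Function.Injective b := by
      intro i j hij
      by_contra h
      exact Set.disjoint_left.mp (hdis i j h) (hb i) (hij ▸ hb j)
    exact no_linked ha hι hI hA.le hI' b hbinj
      (fun X hX => linked_of_minor hcon hdis hadj b hb X hX)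

end Pool.Agent.Results.MP_e76a7e_co.NoSubdivision
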